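import Pool.Agent.Helper30.L1.Basis
import Pool.Agent.Helper30.L1.Refine

/-!
# Rank-controlled embedding into spaces with a basis: the bounded approximation property suffices
-/

namespace Pool.Agent.Results.MP_628922_an.BoundedApproximation

open Filter Topology Ordinal

/-- The tree `T(X, K)` of finite sequences of unit vectors with
`‖∑ aᵢ xᵢ‖ ≥ K⁻¹ ∑ |aᵢ|` for all scalars. -/
def ellOneTree (X : Type) [NormedAddCommGroup X] [NormedSpace ℝ X] (K : ℝ) : Set (List X) :=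
  {l | (∀ x ∈ l, ‖x‖ = 1) ∧
    ∀ a : Fin l.length → ℝ, K⁻¹ * ∑ i, |a i| ≤ ‖∑ i, a i • l.get i‖}

/-- `φ(X) ≤ ξ`: every tree `T(X, K)`, `K ≥ 1`, is well founded of order at most `ξ`, that is, it
carries a rank function with values below `ξ` which decreases strictly when a sequence is
prolonged. -/
def IndexLE (X : Type) [NormedAddCommGroup X] [NormedSpace ℝ X] (ξ : Ordinal.{0}) : Prop :=
  ∀ K : ℝ, 1 ≤ K → ∃ ρ : List X → Ordinal.{0}, (∀ l ∈ ellOneTree X K, ρ l < ξ) ∧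
    ∀ l x, l ++ [x] ∈ ellOneTree X K → ρ (l ++ [x]) < ρ l

/-- `i` is an isomorphic embedding. -/
def IsEmb {X Y : Type} [NormedAddCommGroup X] [NormedSpace ℝ X] [NormedAddCommGroup Y]
    [NormedSpace ℝ Y] (i : X →L[ℝ] Y) : Prop :=
  ∃ c : ℝ, 0 < c ∧ ∀ v, c * ‖v‖ ≤ ‖i v‖

/-- The sequence `T` of finite rank operators converges pointwise to `i`. -/
def FinRankApprox {X Y : Type} [NormedAddCommGroup X] [NormedSpace ℝ X] [NormedAddCommGroup Y]
    [NormedSpace ℝ Y] (T : ℕ → X →L[ℝ] Y) (i : X →L[ℝ] Y) : Prop :=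
  (∀ n, FiniteDimensional ℝ (T n).range) ∧ ∀ v, Tendsto (fun n => T n v) atTop (𝓝 (i v))

/-- Q1: every `X ≠ 0` with `φ(X) ≤ ξ` embeds into some `Y` with a Schauder basis and
`φ(Y) ≤ g(ξ)`. -/
def Q1 : Prop :=
  ∃ g : Ordinal.{0} → Ordinal.{0}, (∀ ξ < ω₁, g ξ < ω₁) ∧ ∀ ξ < ω₁,
    ∀ (X : Type) [NormedAddCommGroup X] [NormedSpace ℝ X] [CompleteSpace X]
      [TopologicalSpace.SeparableSpace X] [Nontrivial X], IndexLE X ξ →
    ∃ (Y : Type) (_ : NormedAddCommGroup Y) (_ : NormedSpace ℝ Y) (_ : CompleteSpace Y)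
      (_ : SchauderBasis ℝ Y) (J : X →L[ℝ] Y), IsEmb J ∧ IndexLE Y (g ξ)

/-- The approximation form of Q1: every `X ≠ 0` with `φ(X) ≤ ξ` embeds into some Banach space `E`
with `φ(E) ≤ g(ξ)` in such a way that the embedding is a pointwise limit of a sequence of finite
rank operators. -/
def Q1Approx : Prop :=
  ∃ g : Ordinal.{0} → Ordinal.{0}, (∀ ξ < ω₁, g ξ < ω₁) ∧ ∀ ξ < ω₁,
    ∀ (X : Type) [NormedAddCommGroup X] [NormedSpace ℝ X] [CompleteSpace X]
      [TopologicalSpace.SeparableSpace X] [Nontrivial X], IndexLE X ξ →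
    ∃ (E : Type) (_ : NormedAddCommGroup E) (_ : NormedSpace ℝ E) (_ : CompleteSpace E)
      (i : X →L[ℝ] E) (T : ℕ → X →L[ℝ] E), IsEmb i ∧ FinRankApprox T i ∧ IndexLE E (g ξ)

section Aux

open Pool.Helper30.L1

variable {X : Type} [NormedAddCommGroup X] [NormedSpace ℝ X]

lemma cmb_ofFn {n : ℕ} (a : Fin n → ℝ) (x : Fin n → X) :
    cmb (List.ofFn fun i => (a i, x i)) = ∑ i, a i • x i := by
  rw [cmb, List.map_ofFn, List.sum_ofFn]
  rfl

lemma asum_ofFn {n : ℕ} (a : Fin n → ℝ) (x : Fin n → X) :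
    asum (List.ofFn fun i => (a i, x i)) = ∑ i, |a i| := by
  rw [asum, List.map_ofFn, List.sum_ofFn]
  rfl

lemma ellOneTree_eq (K : ℝ) : ellOneTree X K = UT X K := by
  ext l
  constructor
  · rintro ⟨h1, h2⟩
    refine ⟨h1, ?_⟩
    intro c hc
    subst hc
    have h3 := h2 (fun i => (c.get (i.cast (by simp))).1)
    have hlen : (c.map Prod.snd).length = c.length := by simp
    have h4 : c = List.ofFn fun i : Fin (c.map Prod.snd).length =>
        ((c.get (i.cast hlen)).1, (c.map Prod.snd).get i) := by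
      apply List.ext_get
      · simp
      · intro n h5 h6
        simp
    have h7 := asum_ofFn (fun i : Fin (c.map Prod.snd).length => (c.get (i.cast hlen)).1)
      (fun i => (c.map Prod.snd).get i)
    have h8 := cmb_ofFn (fun i : Fin (c.map Prod.snd).length => (c.get (i.cast hlen)).1)
      (fun i => (c.map Prod.snd).get i)
    rw [← h4] at h7 h8
    rw [h7, h8]
    exact h3
  · rintro ⟨h1, h2⟩
    refine ⟨h1, ?_⟩
    intro a
    have h3 := h2 (List.ofFn fun i => (a i, l.get i)) (by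
      rw [List.map_ofFn]
      change List.ofFn (fun i => l.get i) = l
      exact List.ofFn_get l)
    rw [asum_ofFn, cmb_ofFn] at h3
    exact h3

lemma IndexLE.hasRank {ξ : Ordinal.{0}} (h : IndexLE X ξ) {K : ℝ} (hK : 1 ≤ K) :
    HasRank (UT X K) ξ := by
  obtain ⟨ρ, h1, h2⟩ := h K hK
  rw [ellOneTree_eq] at h1 h2
  exact ⟨ρ, h1, h2⟩

/-- Subspaces of the space of convergent sequences. -/
lemma indexLE_sub {E : Type} [NormedAddCommGroup E] [NormedSpace ℝ E] (ξ : Ordinal.{0})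
    (h : IndexLE E ξ) (Y : Submodule ℝ C(OnePoint ℕ, E)) : IndexLE Y (ξ ^ ω * ω) := by
  intro K hK
  have hK0 : 0 < K := by linarith
  have hε : 0 < K⁻¹ := inv_pos.mpr hK0
  obtain ⟨r, ρ, h1, h2⟩ := hasRank_conv (E := E) K⁻¹ hε ξ (by
    apply h.hasRank
    rw [inv_div, div_inv_eq_mul]
    linarith)
  have hξ : 0 < ξ := by
    obtain ⟨ρ', h3, _⟩ := h.hasRank le_rfl
    exact lt_of_le_of_lt zero_le (h3 [] ⟨by simp, by
      intro c hc
      have : c = [] := by simpa using hc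
      subst this
      simp⟩)
  have key : ∀ l ∈ ellOneTree Y K,
      l.map (fun y : Y => (y : C(OnePoint ℕ, E))) ∈
        Tr (normSeminorm ℝ C(OnePoint ℕ, E)) K⁻¹ := by
    intro l hl
    rw [ellOneTree_eq] at hl
    refine ⟨?_, ?_⟩
    · intro z hz
      obtain ⟨y, hy, rfl⟩ := List.mem_map.mp hz
      exact (hl.1 y hy).le
    · intro c hc
      obtain ⟨c', h3, h4, h5⟩ := lift_cmb Y.subtype (fun _ => 1) l (fun _ _ => le_rfl) c
        (by rw [hc]; simp)
      have h6 := hl.2 c' h3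
      rw [coe_normSeminorm, ← h4]
      exact (mul_le_mul_of_nonneg_left h5 hε.le).trans h6
  refine ⟨fun l => ρ (l.map fun y : Y => (y : C(OnePoint ℕ, E))), ?_, ?_⟩
  · intro l hl
    refine (h1 _ (key l hl)).trans_le ?_
    gcongr
    exact (natCast_lt_omega0 r).le
  · intro l x hlx
    have h3 := key _ hlx
    have h4 : (l ++ [x]).map (fun y : Y => (y : C(OnePoint ℕ, E))) =
        l.map (fun y : Y => (y : C(OnePoint ℕ, E))) ++ [(x : C(OnePoint ℕ, E))] := by simp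
    dsimp only
    rw [h4] at h3 ⊢
    exact h2 _ _ h3

lemma main {E : Type} [CompleteSpace X] [Nontrivial X] [NormedAddCommGroup E]
    [NormedSpace ℝ E] [CompleteSpace E] (i : X →L[ℝ] E) (T : ℕ → X →L[ℝ] E) (hi : IsEmb i)
    (hT : FinRankApprox T i) (ξ : Ordinal.{0}) (hξ : IndexLE E ξ) :
    ∃ (Y : Type) (_ : NormedAddCommGroup Y) (_ : NormedSpace ℝ Y) (_ : CompleteSpace Y)
      (b : SchauderBasis ℝ Y) (J : X →L[ℝ] Y) (Q : Y →L[ℝ] E), (∀ n, ‖b.proj n‖ ≤ 1) ∧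
        IsEmb J ∧ ‖Q‖ ≤ 1 ∧ (∀ v, Q (J v) = i v) ∧ IndexLE Y (ξ ^ ω * ω) := by
  obtain ⟨c, hc, hic⟩ := hi
  -- a nonzero vector of `E`
  obtain ⟨v₀, hv₀⟩ := exists_ne (0 : X)
  have he₀ : i v₀ ≠ 0 := by
    intro h0
    have h1 := hic v₀
    rw [h0, norm_zero] at h1
    have h2 := norm_pos_iff.mpr hv₀
    have : 0 < c * ‖v₀‖ := by positivity
    linarith
  -- uniform boundedness
  obtain ⟨C, hC⟩ := banach_steinhaus (g := T) (by
    intro v
    obtain ⟨C, hC⟩ := (hT.2 v).norm.bddAbove_range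
    exact ⟨C, fun n => hC ⟨n, rfl⟩⟩)
  obtain ⟨f, x, hx, hb, hlim⟩ := exists_rank_one T hT.1 i (i v₀) he₀ C hC hT.2
  obtain ⟨b, hbb⟩ := exists_basis x hx
  have hC0 : 0 ≤ C := (norm_nonneg _).trans (hC 0)
  obtain ⟨J, hJ⟩ := exists_embedding x f i (3 * C + 1) (by positivity) hb hlim
  refine ⟨YY x, inferInstance, inferInstance,
    (Submodule.isClosed_topologicalClosure _).completeSpace_coe, b, J, evi x, hbb,
    ⟨c, hc, fun v => (hic v).trans ?_⟩, norm_evi_le x, hJ, indexLE_sub ξ hξ _⟩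
  rw [← hJ v]
  exact ContinuousMap.norm_coe_le_norm (J v : C(OnePoint ℕ, E)) _

lemma countable_bound (ξ : Ordinal.{0}) (h : ξ < ω₁) : ξ ^ ω * ω < ω₁ := by
  have hiff : ∀ α : Ordinal.{0}, α < ω₁ ↔ α.card ≤ Cardinal.aleph0 := by
    intro α
    rw [← Cardinal.ord_aleph, Cardinal.lt_ord, ← Cardinal.succ_aleph0, Order.lt_succ_iff]
  rw [hiff] at h ⊢
  rw [card_mul, card_omega0]
  refine (Cardinal.mul_le_max _ _).trans ?_
  refine max_le (max_le ?_ le_rfl) le_rfl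
  refine (card_opow_le ξ ω).trans ?_
  rw [card_omega0]
  exact max_le le_rfl (max_le h le_rfl)

end Aux

/-- The main theorem. -/
theorem result :
    -- every countable `ξ` gives a countable bound
    (∀ ξ : Ordinal.{0}, ξ < ω₁ → ξ ^ ω * ω < ω₁) ∧
    -- the embedding theorem
    (∀ (X E : Type) [NormedAddCommGroup X] [NormedSpace ℝ X] [CompleteSpace X] [Nontrivial X]
      [NormedAddCommGroup E] [NormedSpace ℝ E] [CompleteSpace E] (i : X →L[ℝ] E)
      (T : ℕ → X →L[ℝ] E), IsEmb i → FinRankApprox T i → ∀ ξ : Ordinal.{0}, IndexLE E ξ →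
      ∃ (Y : Type) (_ : NormedAddCommGroup Y) (_ : NormedSpace ℝ Y) (_ : CompleteSpace Y)
        (b : SchauderBasis ℝ Y) (J : X →L[ℝ] Y) (Q : Y →L[ℝ] E), (∀ n, ‖b.proj n‖ ≤ 1) ∧
          IsEmb J ∧ ‖Q‖ ≤ 1 ∧ (∀ v, Q (J v) = i v) ∧ IndexLE Y (ξ ^ ω * ω)) ∧
    -- the equivalence
    (Q1 ↔ Q1Approx) := by
  refine ⟨countable_bound, ?_, ?_, ?_⟩
  · intro X E _ _ _ _ _ _ _ i T hi hT ξ hξ
    exact main i T hi hT ξ hξ
  · rintro ⟨g, hg, h⟩
    refine ⟨g, hg, ?_⟩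
    intro ξ hξ X _ _ _ _ _ hX
    obtain ⟨Y, i1, i2, i3, b, J, hJ, hY⟩ := h ξ hξ X hX
    refine ⟨Y, i1, i2, i3, J, fun n => (b.proj n).comp J, hJ, ⟨?_, ?_⟩, hY⟩
    · intro n
      have h1 : FiniteDimensional ℝ (b.proj n).range := by
        rw [SchauderBasis.range_proj_eq_span]
        exact FiniteDimensional.span_of_finite ℝ (Set.toFinite _)
      refine Submodule.finiteDimensional_of_le (S₂ := (b.proj n).range) ?_
      rintro _ ⟨v, rfl⟩
      exact ⟨J v, rfl⟩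
    · intro v
      exact SchauderBasis.tendsto_proj b (J v)
  · rintro ⟨g, hg, h⟩
    refine ⟨fun ξ => g ξ ^ ω * ω, fun ξ hξ => countable_bound _ (hg ξ hξ), ?_⟩
    intro ξ hξ X _ _ _ _ _ hX
    obtain ⟨E, i1, i2, i3, i, T, hi, hT, hE⟩ := h ξ hξ X hX
    obtain ⟨Y, j1, j2, j3, b, J, -, -, hJ, -, -, hY⟩ := main i T hi hT _ hE
    exact ⟨Y, j1, j2, j3, b, J, hJ, hY⟩

end Pool.Agent.Results.MP_628922_an.BoundedApproximation
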